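import Pool.Agent.H56.LIM.VPR

/-!
# LIMP: limits are profiles
-/

set_option autoImplicit false

open Complex MeasureTheory Set Filter Topology Metric

namespace Pool.Agent.H67.LIM

open Pool.Agent.H23.GLM Pool.Agent.H23.DZ Pool.Agent.H20.LIM Pool.Agent.H56.LIM

theorem pf_limp (hLSUB : T_LSUB) (hCPT : T_CPT) (hLAN : T_LAN) (hRGT : T_RGT) (hUNQ : T_UNQ)
    (hSMP : T_SMP) (hPLB : T_PLB) : T_LIMP := by
  intro m S hM hF q u hL
  have hL' := hL
  obtain ⟨π, t, hS, hX, hq, hu⟩ := hL
  -- convergent subsequence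
  obtain ⟨φ, hφ, q', u', hq0, hq1, hq', hu', hfe⟩ := hCPT m S hM hF π t hS hX
  have hqq : q' = q := tendsto_nhds_unique hq' (hq.comp hφ.tendsto_atTop)
  subst hqq
  obtain ⟨hmeas, han⟩ := hLAN m S hM hF π t hS hX
  have huu : u =ᵐ[volume] u' := by
    refine hUNQ (fun k => U (π (φ k)) (t (φ k))) u u' (fun k => hmeas (φ k))
      ⟨hu.1, fun R => (hu.2 R).comp hφ.tendsto_atTop⟩ hu'
  have hfunc : ∀ᵐ z : ℂ, u (-(starRingEnd ℂ) z) = u z + q' * z.re := by
    have h1 : ∀ᵐ z : ℂ, u z = u' z := huu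
    filter_upwards [h1, ae_Jr h1, hfe] with z h2 h3 h4
    rw [Jr_apply] at h3
    rw [h3, h2, h4]
  -- local integrability and the sub-mean value property
  have hΛ : ∀ᶠ k in atTop, 0 < Real.log ((π k).X (t k)) := by
    filter_upwards [hX.eventually (eventually_gt_atTop 1)] with k hk
    exact Real.log_pos hk
  obtain ⟨hloc, hsub⟩ := hLSUB (fun k z => (π k).L (1 / 2 + t k * I + z))
    (fun k => Real.log ((π k).X (t k))) u hΛ han hu
  -- to the right
  obtain ⟨hr1, ⟨σ, hr2⟩, hr3⟩ := hRGT m S hM hF q' u hL'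
  have hG : IsOpen {z : ℂ | 1 / 2 < z.re} := isOpen_lt continuous_const Complex.continuous_re
  have hGc : IsPreconnected {z : ℂ | 1 / 2 < z.re} := (convex_halfSpace_re_gt _).isPreconnected
  have hball : ∀ z : ℂ, z ∈ ball (((max σ 1 + 2 : ℝ) : ℂ)) 1 → max σ 1 + 1 < z.re := by
    intro z hz
    rw [mem_ball, dist_eq_norm] at hz
    have h1 := (Complex.abs_re_le_norm (z - ((max σ 1 + 2 : ℝ) : ℂ))).trans_lt hz
    rw [Complex.sub_re, Complex.ofReal_re] at h1
    have h2 := (abs_lt.1 h1).1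
    linarith
  have hright : ∀ᵐ z : ℂ, 1 / 2 < z.re → u z = 0 := by
    have h1 := hSMP u {z : ℂ | 1 / 2 < z.re} hloc hsub hG hGc
      (by filter_upwards [hr1] with z hz using hz) ⟨((max σ 1 + 2 : ℝ) : ℂ), 1, one_pos, ?_, ?_⟩
    · filter_upwards [h1] with z hz using hz
    · intro z hz
      have h2 := hball z hz
      have h3 := le_max_right σ 1
      show 1 / 2 < z.re
      linarith
    · filter_upwards [hr2] with z hz h2
      refine hz ?_
      have h3 := hball z h2
      have h4 := le_max_left σ 1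
      linarith
  -- the strip
  have hJright := ae_Jr hright
  have hJr3 := ae_Jr hr3
  have hconv : ∀ᵐ z : ℂ, |z.re| ≤ 1 / 2 → u z + q' / 2 * z.re ≤ q' / 4 := by
    refine hPLB (fun z => u z + q' / 2 * z.re) (q' / 4) 2
      (hloc.add (Continuous.locallyIntegrable (by fun_prop))) ?_ ?_ ?_
    · intro r hr
      filter_upwards [hsub r hr] with z hz
      rw [av_add_re hloc (q' / 2) z hr]
      linarith
    · filter_upwards [hr3, hJr3, hfunc] with z h1 h2 h3 h4
      rw [abs_le] at h4
      rw [Jr_re, Jr_apply] at h2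
      by_cases h5 : -(1 / 4) ≤ z.re
      · have h6 := h1 h5
        nlinarith [h4.1, h4.2]
      · rw [not_le] at h5
        have h6 := h2 (by linarith)
        nlinarith [h4.1, h4.2]
    · intro ε hε
      filter_upwards [hright, hJright, hfunc] with z h1 h2 h3 h4 h5
      rw [Jr_re, Jr_apply] at h2
      rcases lt_abs.1 h4 with h6 | h6
      · rw [abs_of_pos (by linarith)] at h5
        rw [h1 h6]
        nlinarith
      · rw [abs_of_neg (by linarith)] at h5
        have h7 := h2 h6
        rw [h7] at h3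
        nlinarith
  refine ⟨hq0, hq1, ⟨hloc, fun r hr => hsub r hr, hright, hfunc, ?_⟩⟩
  filter_upwards [hconv] with z h1 h2
  have h3 := h1 h2
  linarith

end Pool.Agent.H67.LIM
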